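import Pool.Agent.KAG.Closed
import Pool.Agent.TCC.Exm

/-!
# MP_f8fadf_co: 2-faces which are not 4-gons and a line through an interior point
-/

namespace Pool.Agent.Results.MP_f8fadf_co.CollinearClasses

open scoped InnerProductSpace

/-- The four dimensional Euclidean space. -/
abbrev E4 := EuclideanSpace ℝ (Fin 4)

variable {n : ℕ}

/-- The polyhedron `P` of the inequalities `⟪u i, p⟫ ≤ b i`, `i < n`. -/
def Poly (u : Fin n → E4) (b : Fin n → ℝ) : Set E4 := {p | ∀ i, ⟪u i, p⟫_ℝ ≤ b i}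

/-- The facet `F_i` of `P`. -/
def Facet (u : Fin n → E4) (b : Fin n → ℝ) (i : Fin n) : Set E4 :=
  {p | p ∈ Poly u b ∧ ⟪u i, p⟫_ℝ = b i}

/-- `P` is a 4-polytope with exactly `n` facets `F_0, ..., F_(n-1)`: it is bounded, and for every
`i` some point of `P` lies in `F_i` and in no other `F_j`. -/
structure Is4Polytope (u : Fin n → E4) (b : Fin n → ℝ) : Prop where
  bounded : Bornology.IsBounded (Poly u b)
  facet : ∀ i, ∃ p ∈ Poly u b, ∀ j, ⟪u j, p⟫_ℝ = b j ↔ j = i

/-- The 2-faces `F_i ∩ F_j` (`i < j`, of dimension 2) of `P` which are not 4-gons and all of whose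
vertices lie on facets in `L` only. -/
def NonQuads (u : Fin n → E4) (b : Fin n → ℝ) (L : Set (Fin n)) : Set (Fin n × Fin n) :=
  {e | e.1 < e.2 ∧ Module.finrank ℝ (vectorSpan ℝ (Facet u b e.1 ∩ Facet u b e.2)) = 2 ∧
    (Set.extremePoints ℝ (Facet u b e.1 ∩ Facet u b e.2)).ncard ≠ 4 ∧
    ∀ p ∈ Set.extremePoints ℝ (Facet u b e.1 ∩ Facet u b e.2), ∀ i, ⟪u i, p⟫_ℝ = b i → i ∈ L}

/-- The number of points in which the line `p₀ + ℝ d` meets the hyperplanes of the facets in `L`: it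
meets the hyperplane `⟪u i, p⟫ = b i` in the point `p₀ + t d` with
`1 / t = ⟪u i, d⟫ / (b i - ⟪u i, p₀⟫)`, or, if this number is 0, in its point at infinity. -/
noncomputable def meets (u : Fin n → E4) (b : Fin n → ℝ) (p₀ d : E4) (L : Set (Fin n)) : ℕ :=
  ((fun i => ⟪u i, d⟫_ℝ / (b i - ⟪u i, p₀⟫_ℝ)) '' L).ncard

/-- **Main result.** (1) There is a constant `K` with the following property. Let `P` be a 4-polytope
and `L` a set of `m` of its facets, let the point `p₀` be strictly inside the facets in `L` (for example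
an interior point of `P`) and let a line through `p₀` meet the hyperplanes of the facets in `L` in `k`
points. Then at most `K (k m)^(3/2)` of the 2-faces of `P` whose vertices lie on facets in `L` only are
not 4-gons. (2) For every `n ≥ 14` there are a 4-polytope with `n` facets and a line through an interior
point which meets the hyperplanes of all facets in at most 3 points, such that at least
`n^(3/2) / 40` of the 2-faces are not 4-gons. -/
theorem result :
    (∃ K : ℝ, ∀ (n : ℕ) (u : Fin n → E4) (b : Fin n → ℝ), Is4Polytope u b →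
      ∀ (L : Set (Fin n)) (p₀ d : E4), (∀ i ∈ L, ⟪u i, p₀⟫_ℝ < b i) → d ≠ 0 →
      ((NonQuads u b L).ncard : ℝ) ≤ K * ((meets u b p₀ d L : ℝ) * L.ncard) ^ (3 / 2 : ℝ)) ∧
    ∀ n : ℕ, 14 ≤ n → ∃ (u : Fin n → E4) (b : Fin n → ℝ) (p₀ d : E4),
      Is4Polytope u b ∧ (∀ i, ⟪u i, p₀⟫_ℝ < b i) ∧ d ≠ 0 ∧ meets u b p₀ d Set.univ ≤ 3 ∧
      (n : ℝ) ^ (3 / 2 : ℝ) / 40 ≤ ((NonQuads u b Set.univ).ncard : ℝ) := by
  constructor
  · obtain ⟨K, -, hK⟩ := KAG.Closed.upperM
    refine ⟨K, fun n u b hP L p₀ d h₀ hd => ?_⟩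
    rw [Real.mul_rpow (Nat.cast_nonneg _) (Nat.cast_nonneg _), ← mul_assoc]
    exact hK n u b p₀ d L ⟨hP.bounded, hP.facet⟩ h₀ hd
  · intro n hn
    obtain ⟨u, b, p₀, d, s, c, hP, h₀, hd, hcl, hN⟩ := TCC.lower n hn
    refine ⟨u, b, p₀, d, ⟨hP.bounded, hP.facet⟩, h₀, hd, ?_, ?_⟩
    · have h1 : (fun i => ⟪u i, d⟫_ℝ / (b i - ⟪u i, p₀⟫_ℝ)) '' Set.univ ⊆ Set.range s := by
        rintro y ⟨i, -, rfl⟩
        have h1 : b i - ⟪u i, p₀⟫_ℝ ≠ 0 := by have := h₀ i; linarith
        refine ⟨c i, ?_⟩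
        dsimp only
        rw [hcl, mul_div_cancel_right₀ _ h1]
      have h2 : (Set.range s).ncard ≤ 3 := by
        rw [← Set.image_univ]
        refine (Set.ncard_image_le).trans ?_
        rw [Set.ncard_univ, Nat.card_eq_fintype_card, Fintype.card_fin]
      exact (Set.ncard_le_ncard h1 (Set.finite_range s)).trans h2
    · have h3 : NonQuads u b Set.univ = TCC.NonQuads u b := by
        ext e
        constructor
        · rintro ⟨h1, h2, h3, -⟩
          exact ⟨h1, h2, h3⟩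
        · rintro ⟨h1, h2, h3⟩
          exact ⟨h1, h2, h3, fun _ _ i _ => Set.mem_univ i⟩
      rw [h3]
      exact hN

end Pool.Agent.Results.MP_f8fadf_co.CollinearClasses
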