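import Pool.Agent.Quad56.Exm

/-!
# MP_f8fadf_co: 2-faces which are not 4-gons, for facets in few pencils
-/

namespace Pool.Agent.Results.MP_f8fadf_co.FewPencils

open Finset
open scoped InnerProductSpace

/-- The four dimensional Euclidean space. -/
abbrev E4 := EuclideanSpace ℝ (Fin 4)

variable {n k : ℕ}

/-- The polyhedron `P` of the inequalities `⟪u i, p⟫ ≤ b i`, `i < n`. -/
def Poly (u : Fin n → E4) (b : Fin n → ℝ) : Set E4 := {p | ∀ i, ⟪u i, p⟫_ℝ ≤ b i}

/-- The facet `F_i` of `P`. -/
def Facet (u : Fin n → E4) (b : Fin n → ℝ) (i : Fin n) : Set E4 :=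
  {p | p ∈ Poly u b ∧ ⟪u i, p⟫_ℝ = b i}

/-- `P` is a simple 4-polytope with exactly `n` facets `F_0, ..., F_(n-1)`: it is bounded, for every
`i` some point of `P` lies in `F_i` and in no other `F_j`, and every point of `P` lies in at most
four of the `F_j`. -/
structure IsSimple4Polytope (u : Fin n → E4) (b : Fin n → ℝ) : Prop where
  bounded : Bornology.IsBounded (Poly u b)
  facet : ∀ i, ∃ p ∈ Poly u b, ∀ j, ⟪u j, p⟫_ℝ = b j ↔ j = i
  simple : ∀ p ∈ Poly u b, {j | ⟪u j, p⟫_ℝ = b j}.ncard ≤ 4

/-- The facets in `L` form a pencil: the vectors `(u i, b i)`, `i ∈ L`, span a space of dimension at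
most 3, that is, the hyperplanes of these facets have a common projective line. -/
def IsPencil (u : Fin n → E4) (b : Fin n → ℝ) (L : Finset (Fin n)) : Prop :=
  Module.finrank ℝ (Submodule.span ℝ ((fun i => ((u i, b i) : E4 × ℝ)) '' (L : Set (Fin n)))) ≤ 3

/-- The point `v` lies on two facets of one of the sets `Λ_t`. -/
def Special (u : Fin n → E4) (b : Fin n → ℝ) (Λ : Fin k → Finset (Fin n)) (v : E4) : Prop :=
  ∃ t, ∃ p ∈ Λ t, ∃ q ∈ Λ t, p ≠ q ∧ ⟪u p, v⟫_ℝ = b p ∧ ⟪u q, v⟫_ℝ = b q

open Classical in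
/-- The 2-faces `F_i ∩ F_j` (`i < j`) of the simple 4-polytope `P` which are not 4-gons and all of
whose vertices are special. -/
noncomputable def NonQuads (u : Fin n → E4) (b : Fin n → ℝ) (Λ : Fin k → Finset (Fin n)) :
    Finset (Fin n × Fin n) :=
  univ.filter fun e => e.1 < e.2 ∧ (Facet u b e.1 ∩ Facet u b e.2).Nonempty ∧
    (Set.extremePoints ℝ (Facet u b e.1 ∩ Facet u b e.2)).ncard ≠ 4 ∧
    ∀ v ∈ Set.extremePoints ℝ (Facet u b e.1 ∩ Facet u b e.2), Special u b Λ v

theorem inter_eq (u : Fin n → E4) (b : Fin n → ℝ) (i j : Fin n) :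
    Facet u b i ∩ Facet u b j = Quad56.Two u b i j := by
  ext p
  constructor
  · rintro ⟨⟨h1, h2⟩, -, h3⟩
    exact ⟨h1, h2, h3⟩
  · rintro ⟨h1, h2, h3⟩
    exact ⟨⟨h1, h2⟩, h1, h3⟩

theorem simple_iff (u : Fin n → E4) (b : Fin n → ℝ) :
    IsSimple4Polytope u b ↔ Quad56.Simple4 u b := by
  have hc : ∀ p : E4, {j | ⟪u j, p⟫_ℝ = b j}.ncard = (Quad56.act u b p).card := by
    intro p
    rw [← Set.ncard_coe_finset]
    congr 1
    ext j
    rw [mem_coe, Quad56.mem_act]
    rfl
  have hf : ∀ (p : E4) (i : Fin n), (∀ j, ⟪u j, p⟫_ℝ = b j ↔ j = i) ↔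
      Quad56.act u b p = {i} := by
    intro p i
    constructor
    · intro h
      ext j
      rw [Quad56.mem_act, mem_singleton]
      exact h j
    · intro h j
      rw [← Quad56.mem_act, h, mem_singleton]
  constructor
  · intro h
    refine ⟨h.bounded, fun i => ?_, fun p hp => ?_⟩
    · obtain ⟨p, hp, h1⟩ := h.facet i
      exact ⟨p, hp, (hf p i).mp h1⟩
    · rw [← hc]
      exact h.simple p hp
  · intro h
    refine ⟨h.bdd, fun i => ?_, fun p hp => ?_⟩
    · obtain ⟨p, hp, h1⟩ := h.facet i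
      exact ⟨p, hp, (hf p i).mpr h1⟩
    · rw [hc]
      exact h.simple p hp

theorem nonQuads_eq (u : Fin n → E4) (b : Fin n → ℝ) (Λ : Fin k → Finset (Fin n)) :
    NonQuads u b Λ = Quad56.BadP u b Λ := by
  unfold NonQuads Quad56.BadP
  ext e
  simp only [mem_filter, mem_univ, true_and, inter_eq]
  rfl

theorem two_comm (u : Fin n → E4) (b : Fin n → ℝ) (i j : Fin n) :
    Quad56.Two u b i j = Quad56.Two u b j i := by
  ext p
  constructor
  · rintro ⟨h1, h2, h3⟩
    exact ⟨h1, h3, h2⟩
  · rintro ⟨h1, h2, h3⟩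
    exact ⟨h1, h3, h2⟩

theorem vertex_act {u : Fin n → E4} {b : Fin n → ℝ} (h : Quad56.Simple4 u b) {v : E4}
    (hv : v ∈ Set.extremePoints ℝ (Poly u b)) :
    v ∈ Quad56.Poly u b ∧ (Quad56.act u b v).card = 4 := by
  obtain ⟨hp, hext⟩ := hv
  refine ⟨hp, ?_⟩
  by_contra hne
  have hle := h.simple v hp
  have hlt : Module.finrank ℝ
      (Submodule.span ℝ (Set.range fun i : Quad56.act u b v => u i)) < 4 := by
    have h1 := finrank_range_le_card (R := ℝ) (fun i : Quad56.act u b v => u i)
    rw [Set.finrank, Fintype.card_coe] at h1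
    omega
  obtain ⟨d, hd, hd0⟩ := Quad56.exists_orth _ hlt
  have hd1 : ∀ i ∈ Quad56.act u b v, ⟪u i, d⟫_ℝ = 0 := fun i hi => hd0 ⟨i, hi⟩
  obtain ⟨t, ht, hq, -⟩ := Quad56.move h hp hd fun i hi => (hd1 i hi).le
  obtain ⟨t', ht', hq', -⟩ := Quad56.move h hp (neg_ne_zero.mpr hd) fun i hi => by
    rw [inner_neg_right, hd1 i hi, neg_zero]
  have hq2 : v + (-t') • d ∈ Quad56.Poly u b := by
    rw [show (-t') • d = t' • -d by rw [neg_smul, smul_neg]]
    exact hq'
  have hseg : v ∈ openSegment ℝ (v + t • d) (v + (-t') • d) := by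
    have htt : 0 < t + t' := by linarith
    refine ⟨t' / (t + t'), t / (t + t'), div_pos ht' htt, div_pos ht htt, ?_, ?_⟩
    · rw [← add_div, add_comm t' t, div_self htt.ne']
    · have e1 : t' / (t + t') + t / (t + t') = 1 := by
        rw [← add_div, add_comm t' t, div_self htt.ne']
      rw [smul_add, smul_add, smul_smul, smul_smul]
      have e2 : t' / (t + t') * t + t / (t + t') * (-t') = 0 := by ring
      calc (t' / (t + t')) • v + (t' / (t + t') * t) • d +
          ((t / (t + t')) • v + (t / (t + t') * (-t')) • d)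
          = (t' / (t + t') + t / (t + t')) • v +
            (t' / (t + t') * t + t / (t + t') * (-t')) • d := by
            rw [add_smul, add_smul]; abel
        _ = v := by rw [e1, e2, one_smul, zero_smul, add_zero]
  have h1 := hext hq hq2 hseg
  have h2 : t • d = 0 := by simpa using h1
  rcases smul_eq_zero.mp h2 with h3 | h3
  · exact ht.ne' h3
  · exact hd h3

/-- **Main result.** (1) If `Λ_1, ..., Λ_k` are disjoint pencils of facets of a simple 4-polytope
with `n` facets, then at most `55 √(k n³)` of its 2-faces all of whose vertices lie on two facets of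
one of the pencils are not 4-gons. (2) For all `n ≥ 200` there is such a polytope with `k = 2`, all
vertices of which lie on two facets of one of the two pencils, with at least `√(n³) / 600` such
2-faces. -/
theorem result :
    (∀ (n k : ℕ) (u : Fin n → E4) (b : Fin n → ℝ) (Λ : Fin k → Finset (Fin n)),
      IsSimple4Polytope u b → (∀ s t, s ≠ t → Disjoint (Λ s) (Λ t)) →
      (∀ t, IsPencil u b (Λ t)) →
      ((NonQuads u b Λ).card : ℝ) ≤ 55 * √((k : ℝ) * (n : ℝ) ^ 3)) ∧
    ∀ n : ℕ, 200 ≤ n → ∃ (u : Fin n → E4) (b : Fin n → ℝ) (Λ : Fin 2 → Finset (Fin n)),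
      IsSimple4Polytope u b ∧ (∀ s t, s ≠ t → Disjoint (Λ s) (Λ t)) ∧
      (∀ t, IsPencil u b (Λ t)) ∧
      (∀ v ∈ Set.extremePoints ℝ (Poly u b), Special u b Λ v) ∧
      √((n : ℝ) ^ 3) / 600 ≤ ((NonQuads u b Λ).card : ℝ) := by
  constructor
  · intro n k u b Λ h hd hp
    rw [nonQuads_eq]
    exact Quad56.main ((simple_iff u b).mp h) hd hp
  · intro n hn
    obtain ⟨u, b, A, B, h, hAB, hA, hB, -, hsp, Q, hQ, hQ'⟩ :=
      Quad56.exm (n / 2) n (by omega) (by omega)
    refine ⟨u, b, ![A, B], (simple_iff u b).mpr h, ?_, ?_, ?_, ?_⟩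
    · intro s t hst
      fin_cases s <;> fin_cases t
      · exact absurd rfl hst
      · exact hAB
      · exact hAB.symm
      · exact absurd rfl hst
    · intro t
      fin_cases t
      · exact hA
      · exact hB
    · intro v hv
      obtain ⟨h1, h2⟩ := vertex_act h hv
      exact hsp v h1 h2
    · rw [nonQuads_eq]
      have hcard : Q.card ≤ (Quad56.BadP u b ![A, B]).card := by
        apply card_le_card_of_injOn (fun z : Fin n × Fin n => (min z.1 z.2, max z.1 z.2))
        · intro z hz
          obtain ⟨hzA, hzB, ⟨k, hk, -, -, -, -, -, ⟨τ, hτ, hτ1, hτ2, -⟩, -⟩, h5⟩ := hQ' z hz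
          have hne : z.1 ≠ z.2 := fun hc =>
            Finset.disjoint_left.mp hAB hzA (hc ▸ hzB)
          have hcard5 : (Set.extremePoints ℝ (Quad56.Two u b z.1 z.2)).ncard ≠ 4 := by
            rw [Quad56.ncard_extreme h]
            omega
          have hnon : (Quad56.Two u b z.1 z.2).Nonempty := by
            obtain ⟨-, v, hv, hva⟩ := Quad56.mem_tets.mp hτ
            refine ⟨v, hv, ?_, ?_⟩
            · rw [← Quad56.mem_act, hva]
              exact hτ1
            · rw [← Quad56.mem_act, hva]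
              exact hτ2
          have hall : ∀ v ∈ Set.extremePoints ℝ (Quad56.Two u b z.1 z.2),
              Quad56.Spc u b ![A, B] v := by
            intro v hv
            obtain ⟨h1, h2, -⟩ := (Quad56.extreme_iff h).mp hv
            exact hsp v h1 h2
          rw [mem_coe]
          simp only [Quad56.BadP, mem_filter, mem_univ, true_and]
          rcases lt_or_gt_of_ne hne with hlt | hlt
          · rw [min_eq_left hlt.le, max_eq_right hlt.le]
            exact ⟨hlt, hnon, hcard5, hall⟩
          · rw [min_eq_right hlt.le, max_eq_left hlt.le]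
            rw [two_comm] at hnon hcard5 hall
            exact ⟨hlt, hnon, hcard5, hall⟩
        · intro z hz z' hz' hzz
          rw [mem_coe] at hz hz'
          obtain ⟨hzA, hzB, -⟩ := hQ' z hz
          obtain ⟨hzA', hzB', -⟩ := hQ' z' hz'
          have h1 : min z.1 z.2 = min z'.1 z'.2 := (Prod.mk.inj hzz).1
          have h2 : max z.1 z.2 = max z'.1 z'.2 := (Prod.mk.inj hzz).2
          have hx : ∀ x y : Fin n, x ∈ A → y ∈ B → x ≠ y := fun x y hx hy hc =>
            Finset.disjoint_left.mp hAB hx (hc ▸ hy)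
          rcases le_total z.1 z.2 with h3 | h3 <;> rcases le_total z'.1 z'.2 with h4 | h4
          · rw [min_eq_left h3, min_eq_left h4] at h1
            rw [max_eq_right h3, max_eq_right h4] at h2
            exact Prod.ext h1 h2
          · rw [min_eq_left h3, min_eq_right h4] at h1
            exact absurd h1 (hx _ _ hzA hzB')
          · rw [min_eq_right h3, min_eq_left h4] at h1
            exact absurd h1.symm (hx _ _ hzA' hzB)
          · rw [min_eq_right h3, min_eq_right h4] at h1
            rw [max_eq_left h3, max_eq_left h4] at h2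
            exact Prod.ext h2 h1
      have h1 : (Q.card : ℝ) ≤ (Quad56.BadP u b ![A, B]).card := by exact_mod_cast hcard
      refine le_trans ?_ (hQ.trans h1)
      have h2 : (4 : ℝ) * n ≤ 9 * (n / 2 : ℕ) := by
        have : 4 * n ≤ 9 * (n / 2) := by omega
        exact_mod_cast this
      have h3 : √((n : ℝ) ^ 3) ≤ n * (3 / 2 * √((n / 2 : ℕ) : ℝ)) := by
        rw [Real.sqrt_le_iff]
        constructor
        · positivity
        · have h4 : √((n / 2 : ℕ) : ℝ) ^ 2 = ((n / 2 : ℕ) : ℝ) :=
            Real.sq_sqrt (Nat.cast_nonneg _)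
          rw [mul_pow, mul_pow, h4]
          have h5 : (0 : ℝ) ≤ (n : ℝ) ^ 2 := sq_nonneg _
          nlinarith
      linarith

end Pool.Agent.Results.MP_f8fadf_co.FewPencils
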