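import Pool.Agent.F32P.Closed
import Pool.Agent.F32.PS_End2

/-!
# MP_f8fadf_co: a 4-polytope with `n` facets has at most `C n^(2-c)` 2-faces which are not 4-gons
-/

namespace Pool.Agent.Results.MP_f8fadf_co.PowerSaving

open scoped InnerProductSpace

/-- The four dimensional Euclidean space. -/
abbrev E4 := EuclideanSpace ℝ (Fin 4)

variable {n : ℕ}

/-- The polyhedron `P` of the inequalities `⟪u i, p⟫ ≤ b i`, `i < n`. -/
def Poly (u : Fin n → E4) (b : Fin n → ℝ) : Set E4 := {p | ∀ i, ⟪u i, p⟫_ℝ ≤ b i}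

/-- The facet `F_i` of `P`. -/
def Facet (u : Fin n → E4) (b : Fin n → ℝ) (i : Fin n) : Set E4 :=
  {p | p ∈ Poly u b ∧ ⟪u i, p⟫_ℝ = b i}

/-- `P` is a 4-polytope with exactly `n` facets `F_0, ..., F_(n-1)`: it is bounded, and for every
`i` some point of `P` lies in `F_i` and in no other `F_j`. -/
structure Is4Polytope (u : Fin n → E4) (b : Fin n → ℝ) : Prop where
  bounded : Bornology.IsBounded (Poly u b)
  facet : ∀ i, ∃ p ∈ Poly u b, ∀ j, ⟪u j, p⟫_ℝ = b j ↔ j = i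

/-- The 2-faces `F_i ∩ F_j` (`i < j`, of dimension 2) of `P` which are not 4-gons. -/
def NonQuads (u : Fin n → E4) (b : Fin n → ℝ) : Set (Fin n × Fin n) :=
  {e | e.1 < e.2 ∧ Module.finrank ℝ (vectorSpan ℝ (Facet u b e.1 ∩ Facet u b e.2)) = 2 ∧
    (Set.extremePoints ℝ (Facet u b e.1 ∩ Facet u b e.2)).ncard ≠ 4}

/-- `M(n)`: the largest number of 2-faces which are not 4-gons, over all 4-polytopes with exactly
`n` facets. -/
noncomputable def M (n : ℕ) : ℕ∞ :=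
  ⨆ (u : Fin n → E4) (b : Fin n → ℝ) (_ : Is4Polytope u b), (NonQuads u b).encard

open Pool.Agent.F32 in
/-- **Power saving.** `M(n) ≤ C n^(2-c)` for some `c > 0`: all but `C n^(2-c)` of the 2-faces of a
4-polytope with `n` facets are 4-gons. -/
theorem result : ∃ c C : ℝ, 0 < c ∧ ∀ n : ℕ, 1 ≤ n →
    ∃ N : ℕ, M n = N ∧ (N : ℝ) ≤ C * (n : ℝ) ^ (2 - c) := by
  obtain ⟨c, C, hc, hC, h2⟩ := PS.handA (PS.nonq_powT Pool.Agent.F32P.stmtT)
  refine ⟨c, C, hc, fun n hn => ?_⟩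
  have h0 : 0 ≤ C * (n : ℝ) ^ (2 - c) := mul_nonneg hC.le (Real.rpow_nonneg (Nat.cast_nonneg n) _)
  have h1 : M n ≤ (⌊C * (n : ℝ) ^ (2 - c)⌋₊ : ℕ) := by
    refine iSup_le fun u => iSup_le fun b => iSup_le fun hP => ?_
    have h3 : ((NonQuads u b).ncard : ℝ) ≤ C * (n : ℝ) ^ (2 - c) :=
      h2 n u b hn ⟨hP.bounded, hP.facet⟩
    rw [← (Set.toFinite (NonQuads u b)).cast_ncard_eq]
    exact_mod_cast Nat.le_floor h3
  obtain ⟨N, hN⟩ := ENat.ne_top_iff_exists.1 (ne_top_of_le_ne_top (ENat.natCast_ne_top _) h1)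
  refine ⟨N, hN.symm, ?_⟩
  rw [← hN] at h1
  have h3 : N ≤ ⌊C * (n : ℝ) ^ (2 - c)⌋₊ := by exact_mod_cast h1
  exact (Nat.le_floor_iff h0).1 h3

end Pool.Agent.Results.MP_f8fadf_co.PowerSaving
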