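import Pool.Agent.TRC.Main

/-!
# MP_f8fadf_co: 2-faces which are not 4-gons, and truncations at few places
-/

namespace Pool.Agent.Results.MP_f8fadf_co.Truncations

open Finset
open scoped InnerProductSpace

/-- The four dimensional Euclidean space. -/
abbrev E4 := EuclideanSpace ℝ (Fin 4)

variable {n r : ℕ}

/-- The polyhedron `P` of the inequalities `⟪u i, p⟫ ≤ b i`, `i < n`. -/
def Poly (u : Fin n → E4) (b : Fin n → ℝ) : Set E4 := {p | ∀ i, ⟪u i, p⟫_ℝ ≤ b i}

/-- The facet `F_i` of `P`. -/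
def Facet (u : Fin n → E4) (b : Fin n → ℝ) (i : Fin n) : Set E4 :=
  {p | p ∈ Poly u b ∧ ⟪u i, p⟫_ℝ = b i}

/-- `P` is a simple 4-polytope with exactly `n` facets `F_0, ..., F_(n-1)`: it is bounded, for every
`i` some point of `P` lies in `F_i` and in no other `F_j`, and every point of `P` lies in at most
four of the `F_j`. -/
structure IsSimple4Polytope (u : Fin n → E4) (b : Fin n → ℝ) : Prop where
  bounded : Bornology.IsBounded (Poly u b)
  facet : ∀ i, ∃ p ∈ Poly u b, ∀ j, ⟪u j, p⟫_ℝ = b j ↔ j = i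
  simple : ∀ p ∈ Poly u b, {j | ⟪u j, p⟫_ℝ = b j}.ncard ≤ 4

/-- The 2-faces `F_i ∩ F_j` (`i < j`) of the simple 4-polytope `P` which are not 4-gons. -/
def NonQuads (u : Fin n → E4) (b : Fin n → ℝ) : Set (Fin n × Fin n) :=
  {e | e.1 < e.2 ∧ (Facet u b e.1 ∩ Facet u b e.2).Nonempty ∧
    (Set.extremePoints ℝ (Facet u b e.1 ∩ Facet u b e.2)).ncard ≠ 4}

/-- `F_y` is the last facet containing `v`. -/
def IsLast (u : Fin n → E4) (b : Fin n → ℝ) (v : E4) (y : Fin n) : Prop :=
  ⟪u y, v⟫_ℝ = b y ∧ ∀ i, ⟪u i, v⟫_ℝ = b i → i ≤ y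

/-- Let `F_y` be the last facet containing the vertex `v` of `P` and let `P_y` be the polyhedron of
the inequalities `⟪u i, p⟫ ≤ b i`, `i < y`. The relative interior of the edge of `P_y` which contains
`v`. The hyperplane of `F_y` cuts this edge in the vertex `v`. -/
def Edge (u : Fin n → E4) (b : Fin n → ℝ) (v : E4) (y : Fin n) : Set E4 :=
  {p | ∀ i < y, ⟪u i, p⟫_ℝ ≤ b i ∧ (⟪u i, p⟫_ℝ = b i ↔ ⟪u i, v⟫_ℝ = b i)}

/-- The set `e` has points strictly on both sides of the hyperplane `⟪a, p⟫ = β`. -/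
def Crosses (e : Set E4) (a : E4) (β : ℝ) : Prop :=
  ∃ p ∈ e, ∃ q ∈ e, ⟪a, p⟫_ℝ < β ∧ β < ⟪a, q⟫_ℝ

/-- The vertices `v` of `P` such that the edge of `P_y` which contains `v`, where `F_y` is the last
facet containing `v`, does not cross the hyperplane `⟪a k, p⟫ = β k`, `k = j y`. -/
def Bad (u : Fin n → E4) (b : Fin n → ℝ) (a : Fin r → E4) (β : Fin r → ℝ) (j : Fin n → Fin r) :
    Set E4 :=
  {v | v ∈ Set.extremePoints ℝ (Poly u b) ∧
    ∃ y, IsLast u b v y ∧ ¬ Crosses (Edge u b v y) (a (j y)) (β (j y))}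

theorem sp {u : Fin n → E4} {b : Fin n → ℝ} (h : IsSimple4Polytope u b) : QMark.SP u b := by
  refine ⟨h.bounded, fun p hp => ?_⟩
  have hc : {j | ⟪u j, p⟫_ℝ = b j}.ncard = (QMark.act u b p).card := by
    rw [← Set.ncard_coe_finset]
    congr 1
    ext j
    rw [mem_coe, QMark.mem_act]
    rfl
  rw [← hc]
  exact h.simple p hp

theorem inter_eq (u : Fin n → E4) (b : Fin n → ℝ) (i j : Fin n) :
    Facet u b i ∩ Facet u b j = QMark.Two u b i j := by
  ext p
  constructor
  · rintro ⟨⟨h1, h2⟩, -, h3⟩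
    exact ⟨h1, h2, h3⟩
  · rintro ⟨h1, h2, h3⟩
    exact ⟨⟨h1, h2⟩, h1, h3⟩

theorem nonQuads_card {u : Fin n → E4} {b : Fin n → ℝ} (h : QMark.SP u b) :
    (NonQuads u b).ncard = (QMark.nonq u b).card := by
  classical
  rw [Set.ncard_eq_toFinset_card']
  apply QMark.card_pairs
  · intro x hx
    exact (QMark.mem_faces.mp (mem_filter.mp hx).1).1
  · intro a
    rw [Set.mem_toFinset, QMark.nonq, mem_filter]
    constructor
    · rintro ⟨h1, h2, h3⟩
      rw [inter_eq, QMark.nonempty_two h h1.ne] at h2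
      rw [inter_eq, QMark.ncard_two h] at h3
      exact ⟨h1, h2, h3⟩
    · rintro ⟨h1, h2, h3⟩
      refine ⟨h1, ?_, ?_⟩
      · rw [inter_eq, QMark.nonempty_two h h1.ne]
        exact h2
      · rw [inter_eq, QMark.ncard_two h]
        exact h3

theorem edge_eq {u : Fin n → E4} {b : Fin n → ℝ} {v : E4} {y : Fin n}
    (hy : ∀ i ∈ QMark.act u b v, i ≤ y) :
    Edge u b v y = TRC.Rel u b (Iio y) ((QMark.act u b v).erase y) := by
  ext p
  constructor
  · intro h
    constructor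
    · intro i hi
      rw [mem_erase, QMark.mem_act] at hi
      have h1 := h i (lt_of_le_of_ne (hy i (QMark.mem_act.mpr hi.2)) hi.1)
      exact h1.2.mpr hi.2
    · intro i hi hi2
      rw [mem_Iio] at hi
      have h1 := h i hi
      refine lt_of_le_of_ne h1.1 fun he => hi2 ?_
      rw [mem_erase, QMark.mem_act]
      exact ⟨hi.ne, h1.2.mp he⟩
  · rintro ⟨h1, h2⟩ i hi
    by_cases hv : ⟪u i, v⟫_ℝ = b i
    · have h3 := h1 i (by
        rw [mem_erase, QMark.mem_act]
        exact ⟨hi.ne, hv⟩)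
      exact ⟨h3.le, fun _ => hv, fun _ => h3⟩
    · have h3 := h2 i (mem_Iio.mpr hi) (by
        rw [mem_erase, QMark.mem_act]
        exact fun hc => hv hc.2)
      exact ⟨h3.le, fun he => absurd he h3.ne, fun he => absurd he hv⟩

theorem bad_card {u : Fin n → E4} {b : Fin n → ℝ} (h : QMark.SP u b) (a : Fin r → E4)
    (β : Fin r → ℝ) (j : Fin n → Fin r) :
    (Bad u b a β j).ncard = (TRC.badT u b a β j).card := by
  classical
  apply QMark.ncard_vertices h
  · exact fun t ht => (mem_filter.mp ht).1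
  · intro v
    rw [TRC.badT, mem_filter]
    constructor
    · rintro ⟨h1, y, ⟨hy1, hy2⟩, h3⟩
      have h4 := (QMark.extreme_poly h).mp h1
      refine ⟨h1, QMark.mem_tets.mpr ⟨h4.2, v, h4.1, rfl⟩, ?_⟩
      rintro ⟨z, hz, hmax, p, hp, q, hq, h5, h6⟩
      have hzy : z = y := le_antisymm (hy2 z (QMark.mem_act.mp hz)) (hmax y (QMark.mem_act.mpr hy1))
      subst hzy
      rw [← edge_eq hmax] at hp hq
      exact h3 ⟨p, hp, q, hq, h5, h6⟩
    · rintro ⟨h1, h2, h3⟩
      have h4 := (QMark.mem_tets.mp h2).1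
      obtain ⟨y, hy, hmax⟩ := exists_max_image (QMark.act u b v) id (card_pos.mp (by omega))
      have hmax' : ∀ i ∈ QMark.act u b v, i ≤ y := hmax
      refine ⟨h1, y, ⟨QMark.mem_act.mp hy, fun i hi => hmax' i (QMark.mem_act.mpr hi)⟩, ?_⟩
      rintro ⟨p, hp, q, hq, h5, h6⟩
      rw [edge_eq hmax'] at hp hq
      exact h3 ⟨y, hy, hmax', p, hp, q, hq, h5, h6⟩

/-- **Main result.** Let `P` be a simple 4-polytope with `n` facets `F_0, ..., F_(n-1)`, numbered in
any order, let `K_1, ..., K_r` be hyperplanes and `j` any map from the facets to `1, ..., r`. Let `P_y`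
be the polyhedron bounded by the hyperplanes of the facets `F_i`, `i < y`. If for all but `N` vertices
`v` of `P` the edge of `P_y` which contains `v`, where `F_y` is the last facet containing `v`, crosses
the hyperplane `K_(j y)`, then at most `2000 √r n^(3/2) + 28 N` of the 2-faces of `P` are not
4-gons. -/
theorem result :
    ∀ (n r : ℕ) (u : Fin n → E4) (b : Fin n → ℝ), IsSimple4Polytope u b →
      ∀ (a : Fin r → E4) (β : Fin r → ℝ) (j : Fin n → Fin r),
      ((NonQuads u b).ncard : ℝ) ≤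
        2000 * Real.sqrt r * (n : ℝ) ^ (3 / 2 : ℝ) + 28 * ((Bad u b a β j).ncard : ℝ) := by
  intro n r u b h a β j
  have hs := sp h
  rw [nonQuads_card hs, bad_card hs]
  exact TRC.main hs a β j

end Pool.Agent.Results.MP_f8fadf_co.Truncations
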